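import Mathlib
import Pool.Agent.H783Z.ContactDefs
import Pool.Agent.H783Z.KatokMan

/-! A closed real contact manifold of dimension `5 = 2 * 3 - 1` with exactly two geometrically
distinct symmetric periodic Reeb orbits, fewer than `n = 3`.

The manifold is the product of the unit spheres of dimensions three and two, the unit cotangent
bundle of the three-sphere. The Reeb flow is the geodesic flow of a Katok metric (the round geodesic
flow composed with a rotation of irrational speed in one coordinate plane) and the involution is the
anti-contact lift of quaternionic conjugation, whose fixed set is the union of the two fibres over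
the poles. -/

open scoped Manifold

namespace Pool.Agent.Results.MP_8a71fe_gt.KatokCounterexample

open Pool.Agent.H783Z.Contact

theorem result :
    RealContactWithOrbitCount ((𝓡 3).prod (𝓡 2))
      (Metric.sphere (0 : EuclideanSpace ℝ (Fin 4)) 1 ×
        Metric.sphere (0 : EuclideanSpace ℝ (Fin 3)) 1) 2 :=
  ⟨_, _, _, Pool.Agent.H783Z.Katok.main⟩

end Pool.Agent.Results.MP_8a71fe_gt.KatokCounterexample
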